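import Pool.Agent.H98.Cubic.Targets

/-!
Cubic moment of Hardy's function (`MP_56c76e_nt`), module TP: truncated Poisson summation.
-/

set_option autoImplicit false

open Finset MeasureTheory

namespace Pool.Agent.H94.Cubic

open Pool.Agent.H98.Cubic

/-! ### basic facts on `ee` -/

theorem norm_ee' (x : ℝ) : ‖ee x‖ = 1 := by
  unfold ee ei
  exact Complex.norm_exp_ofReal_mul_I _

theorem ee_add' (x y : ℝ) : ee (x + y) = ee x * ee y := by
  unfold ee ei
  rw [← Complex.exp_add]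
  congr 1
  push_cast
  ring

theorem ee_int' (n : ℤ) : ee (n : ℝ) = 1 := by
  unfold ee ei
  rw [Complex.exp_eq_one_iff]
  exact ⟨n, by push_cast; ring⟩

theorem hasDerivAt_ee' {f : ℝ → ℝ} {f' x : ℝ} (hf : HasDerivAt f f' x) :
    HasDerivAt (fun y => ee (f y)) (2 * Real.pi * Complex.I * f' * ee (f x)) x := by
  unfold ee ei
  have h1 : HasDerivAt (fun y : ℝ => ((2 * Real.pi * f y : ℝ) : ℂ) * Complex.I)
      (((2 * Real.pi * f' : ℝ) : ℂ) * Complex.I) x := by
    have := (hf.const_mul (2 * Real.pi)).ofReal_comp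
    exact this.mul_const Complex.I
  convert h1.cexp using 1
  push_cast
  ring

theorem continuousOn_ee' {f : ℝ → ℝ} {s : Set ℝ} (hf : ContinuousOn f s) :
    ContinuousOn (fun y => ee (f y)) s := by
  unfold ee ei
  fun_prop

/-- sawtooth -/
noncomputable def sw (x : ℝ) : ℝ := Int.fract x - 1 / 2

theorem measurable_sw : Measurable sw := by
  unfold sw
  exact measurable_fract.sub_const _

theorem abs_sw_le (x : ℝ) : |sw x| ≤ 1 / 2 := by
  unfold sw
  rw [abs_le]
  constructor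
  · linarith [Int.fract_nonneg x]
  · linarith [(Int.fract_lt_one x).le]

theorem sw_integrable {G : ℝ → ℂ} {a b : ℝ} (hG : IntervalIntegrable G volume a b) :
    IntervalIntegrable (fun x => ((sw x : ℝ) : ℂ) * G x) volume a b := by
  rw [intervalIntegrable_iff] at hG ⊢
  refine Integrable.bdd_mul (c := 1 / 2) hG ?_ ?_
  · exact (Complex.measurable_ofReal.comp measurable_sw).aestronglyMeasurable
  · refine Filter.Eventually.of_forall fun x => ?_
    rw [Complex.norm_real]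
    exact abs_sw_le x

/-- one unit interval. -/
theorem euler_unit (F F' : ℝ → ℂ) (n : ℤ) (a b : ℝ) (hab : a ≤ b) (hn : (n : ℝ) ≤ a)
    (hb : b ≤ n + 1) (hF : ∀ x ∈ Set.Icc a b, HasDerivAt F (F' x) x)
    (hF' : ContinuousOn F' (Set.Icc a b)) :
    ∫ x in a..b, ((sw x : ℝ) : ℂ) * F' x =
      ((b - n - 1 / 2 : ℝ) : ℂ) * F b - ((a - n - 1 / 2 : ℝ) : ℂ) * F a - ∫ x in a..b, F x := by
  have hFc : ContinuousOn F (Set.Icc a b) := fun x hx => (hF x hx).continuousAt.continuousWithinAt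
  have h1 : ∫ x in a..b, ((sw x : ℝ) : ℂ) * F' x =
      ∫ x in a..b, ((x - n - 1 / 2 : ℝ) : ℂ) * F' x := by
    rw [intervalIntegral.integral_of_le hab, intervalIntegral.integral_of_le hab,
      integral_Ioc_eq_integral_Ioo, integral_Ioc_eq_integral_Ioo]
    refine setIntegral_congr_fun measurableSet_Ioo fun x hx => ?_
    have : Int.fract x = x - n := by
      rw [Int.fract]
      have : ⌊x⌋ = n := by
        rw [Int.floor_eq_iff]
        exact ⟨hn.trans hx.1.le, lt_of_lt_of_le hx.2 hb⟩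
      rw [this]
    simp only [sw, this]
  rw [h1]
  have h2 := intervalIntegral.integral_mul_deriv_eq_deriv_mul (a := a) (b := b)
    (u := fun x : ℝ => ((x - n - 1 / 2 : ℝ) : ℂ)) (u' := fun _ => (1 : ℂ)) (v := F) (v' := F')
    (fun x _ => by
      have := ((hasDerivAt_id x).sub_const (n : ℝ)).sub_const (1 / 2 : ℝ)
      exact this.ofReal_comp)
    (fun x hx => hF x (by rwa [Set.uIcc_of_le hab] at hx))
    (intervalIntegrable_const)
    (by
      apply ContinuousOn.intervalIntegrable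
      rwa [Set.uIcc_of_le hab])
  simp only [one_mul] at h2
  exact h2

theorem euler_aux (F F' : ℝ → ℂ) (k : ℕ) : ∀ (a b : ℝ), a ≤ b → ⌊b⌋ = ⌊a⌋ + k →
    (∀ x ∈ Set.Icc a b, HasDerivAt F (F' x) x) → ContinuousOn F' (Set.Icc a b) →
    ∑ n ∈ Ioc ⌊a⌋ ⌊b⌋, F n = (∫ x in a..b, F x) + (∫ x in a..b, ((sw x : ℝ) : ℂ) * F' x) +
      ((sw a : ℝ) : ℂ) * F a - ((sw b : ℝ) : ℂ) * F b := by
  induction k with
  | zero =>
    intro a b hab hfl hF hF'
    have hfl' : ⌊b⌋ = ⌊a⌋ := by simpa using hfl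
    rw [hfl', Finset.Ioc_self, Finset.sum_empty]
    have hb : b ≤ (⌊a⌋ : ℝ) + 1 := by
      rw [← hfl']
      exact (Int.lt_floor_add_one b).le
    rw [euler_unit F F' ⌊a⌋ a b hab (Int.floor_le a) hb hF hF']
    have e1 : sw a = a - ⌊a⌋ - 1 / 2 := by rw [sw, Int.self_sub_floor]
    have e2 : sw b = b - ⌊a⌋ - 1 / 2 := by rw [sw, ← hfl', Int.self_sub_floor]
    rw [e1, e2]
    ring
  | succ k ih =>
    intro a b hab hfl hF hF'
    set c : ℝ := ((⌊a⌋ + 1 : ℤ) : ℝ) with hc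
    have hac : a ≤ c := by
      rw [hc]; push_cast; exact (Int.lt_floor_add_one a).le
    have hcb : c ≤ b := by
      have h1 : ((⌊a⌋ + 1 : ℤ) : ℝ) ≤ ((⌊b⌋ : ℤ) : ℝ) := by
        have : ⌊a⌋ + 1 ≤ ⌊b⌋ := by
          rw [hfl]; push_cast; lia
        exact_mod_cast this
      exact h1.trans (Int.floor_le b)
    have hflc : ⌊c⌋ = ⌊a⌋ + 1 := by rw [hc]; exact Int.floor_intCast _
    have hsub1 : Set.Icc a c ⊆ Set.Icc a b := Set.Icc_subset_Icc_right hcb
    have hsub2 : Set.Icc c b ⊆ Set.Icc a b := Set.Icc_subset_Icc_left hac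
    have ih' := ih c b hcb (by rw [hflc, hfl]; push_cast; ring)
      (fun x hx => hF x (hsub2 hx)) (hF'.mono hsub2)
    have hu := euler_unit F F' ⌊a⌋ a c hac (Int.floor_le a) (by rw [hc]; push_cast; rfl)
      (fun x hx => hF x (hsub1 hx)) (hF'.mono hsub1)
    have hFc : ContinuousOn F (Set.Icc a b) :=
      fun x hx => (hF x hx).continuousAt.continuousWithinAt
    have i1 : IntervalIntegrable F volume a c :=
      (hFc.mono (by rw [Set.uIcc_of_le hac]; exact hsub1)).intervalIntegrable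
    have i2 : IntervalIntegrable F volume c b :=
      (hFc.mono (by rw [Set.uIcc_of_le hcb]; exact hsub2)).intervalIntegrable
    have j1 : IntervalIntegrable (fun x => ((sw x : ℝ) : ℂ) * F' x) volume a c :=
      sw_integrable (hF'.mono (by rw [Set.uIcc_of_le hac]; exact hsub1)).intervalIntegrable
    have j2 : IntervalIntegrable (fun x => ((sw x : ℝ) : ℂ) * F' x) volume c b :=
      sw_integrable (hF'.mono (by rw [Set.uIcc_of_le hcb]; exact hsub2)).intervalIntegrable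
    have hsum : ∑ n ∈ Ioc ⌊a⌋ ⌊b⌋, F n = F c + ∑ n ∈ Ioc ⌊c⌋ ⌊b⌋, F n := by
      have hle : ⌊a⌋ < ⌊b⌋ := by rw [hfl]; push_cast; lia
      have : Ioc ⌊a⌋ ⌊b⌋ = insert (⌊a⌋ + 1) (Ioc ⌊c⌋ ⌊b⌋) := by
        ext x
        simp only [Finset.mem_Ioc, Finset.mem_insert, hflc]
        lia
      rw [this, Finset.sum_insert]
      simp only [Finset.mem_Ioc, hflc]
      lia
    rw [hsum, ih', ← intervalIntegral.integral_add_adjacent_intervals i1 i2,
      ← intervalIntegral.integral_add_adjacent_intervals j1 j2, hu]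
    have e1 : sw a = a - ⌊a⌋ - 1 / 2 := by rw [sw, Int.self_sub_floor]
    have e2 : sw c = - (1 / 2) := by
      rw [sw, hc, Int.fract_intCast]; norm_num
    have e3 : c - ⌊a⌋ - 1 / 2 = 1 / 2 := by rw [hc]; push_cast; ring
    rw [e1, e2, e3]
    push_cast
    ring

theorem euler_sum (F F' : ℝ → ℂ) (a b : ℝ) (hab : a ≤ b)
    (hF : ∀ x ∈ Set.Icc a b, HasDerivAt F (F' x) x) (hF' : ContinuousOn F' (Set.Icc a b)) :
    ∑ n ∈ Ioc ⌊a⌋ ⌊b⌋, F n = (∫ x in a..b, F x) + (∫ x in a..b, ((sw x : ℝ) : ℂ) * F' x) +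
      ((sw a : ℝ) : ℂ) * F a - ((sw b : ℝ) : ℂ) * F b := by
  refine euler_aux F F' (⌊b⌋ - ⌊a⌋).toNat a b hab ?_ hF hF'
  have : ⌊a⌋ ≤ ⌊b⌋ := Int.floor_mono hab
  lia

/-! ### the Bernoulli series -/

/-- `B₂({x})/2`. -/
noncomputable def bt (x : ℝ) : ℝ := (Int.fract x ^ 2 - Int.fract x + 1 / 6) / 2

theorem continuous_bt : Continuous bt := by
  have h : ContinuousOn (fun y : ℝ => (y ^ 2 - y + 1 / 6) / 2) (Set.Icc (0 : ℝ) 1) := by
    fun_prop
  exact h.comp_fract'' (by norm_num)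

theorem hasSum_bt (x : ℝ) :
    HasSum (fun n : ℕ => Real.cos (2 * Real.pi * (n + 1) * x) / (2 * Real.pi ^ 2 * (n + 1) ^ 2))
      (bt x) := by
  have h := hasSum_one_div_nat_pow_mul_cos (k := 1) one_ne_zero (x := Int.fract x)
    ⟨Int.fract_nonneg x, (Int.fract_lt_one x).le⟩
  have h2 : (-1 : ℝ) ^ (1 + 1) * (2 * Real.pi) ^ (2 * 1) / 2 / (2 * 1).factorial *
      (Polynomial.map (algebraMap ℚ ℝ) (Polynomial.bernoulli (2 * 1))).eval (Int.fract x) =
      2 * Real.pi ^ 2 * bt x := by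
    have : (Polynomial.map (algebraMap ℚ ℝ) (Polynomial.bernoulli (2 * 1))).eval (Int.fract x) =
        Int.fract x ^ 2 - Int.fract x + 1 / 6 := by
      simp [Polynomial.bernoulli, Finset.sum_range_succ, bernoulli, bernoulli'_two,
        Polynomial.eval_monomial]
      ring
    rw [this, bt]
    simp [Nat.factorial]
    ring
  rw [h2] at h
  rw [← hasSum_nat_add_iff' 1] at h
  simp only [Finset.sum_range_one, Nat.cast_zero] at h
  norm_num at h
  have h3 := h.div_const (2 * Real.pi ^ 2)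
  have hpi : (2 * Real.pi ^ 2 : ℝ) ≠ 0 := by positivity
  rw [mul_div_cancel_left₀ _ hpi] at h3
  have e : (fun n : ℕ => Real.cos (2 * Real.pi * (n + 1) * x) / (2 * Real.pi ^ 2 * (n + 1) ^ 2)) =
      fun i : ℕ => (((i : ℝ) + 1) ^ 2)⁻¹ * Real.cos (2 * Real.pi * (i + 1) * Int.fract x) /
        (2 * Real.pi ^ 2) := by
    funext n
    have : Real.cos (2 * Real.pi * (n + 1) * Int.fract x) =
        Real.cos (2 * Real.pi * (n + 1) * x) := by
      have : 2 * Real.pi * (n + 1) * Int.fract x =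
          2 * Real.pi * (n + 1) * x - ((((n : ℤ) + 1) * ⌊x⌋ : ℤ) : ℝ) * (2 * Real.pi) := by
        rw [Int.fract]; push_cast; ring
      rw [this, Real.cos_sub_int_mul_two_pi]
    rw [this]
    field_simp
  rw [e]
  exact h3

theorem continuousOn_of_hasDerivAt {F F' : ℝ → ℂ} {a b : ℝ}
    (hF : ∀ x ∈ Set.Icc a b, HasDerivAt F (F' x) x) : ContinuousOn F (Set.Icc a b) :=
  fun x hx => (hF x hx).continuousAt.continuousWithinAt

theorem hasDerivAt_bt {x : ℝ} (hx : x ∉ Set.range (fun n : ℤ => (n : ℝ))) :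
    HasDerivAt bt (sw x) x := by
  have h1 : (⌊x⌋ : ℝ) < x := by
    refine lt_of_le_of_ne (Int.floor_le x) ?_
    intro h
    exact hx ⟨⌊x⌋, h⟩
  have h2 : x < ⌊x⌋ + 1 := Int.lt_floor_add_one x
  have h3 : HasDerivAt (fun y : ℝ => ((y - ⌊x⌋) ^ 2 - (y - ⌊x⌋) + 1 / 6) / 2) (sw x) x := by
    have h4 : HasDerivAt (fun y : ℝ => y - (⌊x⌋ : ℝ)) 1 x := (hasDerivAt_id x).sub_const _
    have := (((h4.pow 2).sub h4).add_const (1 / 6 : ℝ)).div_const 2
    have e : sw x = (((2 : ℕ) : ℝ) * (x - ⌊x⌋) ^ (2 - 1) * 1 - 1) / 2 := by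
      rw [sw, ← Int.self_sub_floor]
      norm_num
      ring
    rw [e]
    exact this
  refine h3.congr_of_eventuallyEq ?_
  filter_upwards [Ioo_mem_nhds h1 h2] with y hy
  have : ⌊y⌋ = ⌊x⌋ := by
    rw [Int.floor_eq_iff]
    exact ⟨hy.1.le, hy.2⟩
  rw [bt, Int.fract, this]

theorem int_sw_eq (G G' : ℝ → ℂ) (a b : ℝ) (hab : a ≤ b)
    (hG : ∀ x ∈ Set.Icc a b, HasDerivAt G (G' x) x) (hG' : ContinuousOn G' (Set.Icc a b)) :
    ∫ x in a..b, ((sw x : ℝ) : ℂ) * G x =
      ((bt b : ℝ) : ℂ) * G b - ((bt a : ℝ) : ℂ) * G a - ∫ x in a..b, ((bt x : ℝ) : ℂ) * G' x := by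
  have hGc := continuousOn_of_hasDerivAt hG
  have i1 : IntervalIntegrable (fun x => ((sw x : ℝ) : ℂ) * G x) volume a b :=
    sw_integrable (hGc.mono (by rw [Set.uIcc_of_le hab])).intervalIntegrable
  have i2 : IntervalIntegrable (fun x => ((bt x : ℝ) : ℂ) * G' x) volume a b := by
    apply ContinuousOn.intervalIntegrable
    rw [Set.uIcc_of_le hab]
    exact (Complex.continuous_ofReal.comp continuous_bt).continuousOn.mul hG'
  have h := integral_eq_of_hasDerivAt_off_countable (fun x => ((bt x : ℝ) : ℂ) * G x)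
    (fun x => ((sw x : ℝ) : ℂ) * G x + ((bt x : ℝ) : ℂ) * G' x) (a := a) (b := b)
    (s := Set.range (fun n : ℤ => (n : ℝ))) (Set.countable_range _)
    (by
      rw [Set.uIcc_of_le hab]
      exact (Complex.continuous_ofReal.comp continuous_bt).continuousOn.mul hGc)
    (by
      intro x hx
      rw [min_eq_left hab, max_eq_right hab] at hx
      have hx1 : x ∈ Set.Icc a b := ⟨hx.1.1.le, hx.1.2.le⟩
      exact (hasDerivAt_bt hx.2).ofReal_comp.mul (hG x hx1))
    (i1.add i2)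
  rw [intervalIntegral.integral_add i1 i2] at h
  rw [← h]
  ring

theorem int_sin_eq (G G' : ℝ → ℂ) (a b : ℝ) (hab : a ≤ b) (n : ℕ)
    (hG : ∀ x ∈ Set.Icc a b, HasDerivAt G (G' x) x) (hG' : ContinuousOn G' (Set.Icc a b)) :
    ∫ x in a..b, ((-(Real.sin (2 * Real.pi * (n + 1) * x) / (Real.pi * (n + 1))) : ℝ) : ℂ) * G x =
      ((Real.cos (2 * Real.pi * (n + 1) * b) / (2 * Real.pi ^ 2 * (n + 1) ^ 2) : ℝ) : ℂ) * G b -
      ((Real.cos (2 * Real.pi * (n + 1) * a) / (2 * Real.pi ^ 2 * (n + 1) ^ 2) : ℝ) : ℂ) * G a -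
      ∫ x in a..b, ((Real.cos (2 * Real.pi * (n + 1) * x) /
        (2 * Real.pi ^ 2 * (n + 1) ^ 2) : ℝ) : ℂ) * G' x := by
  have hGc := continuousOn_of_hasDerivAt hG
  have key : ∀ x : ℝ, HasDerivAt (fun y : ℝ => ((Real.cos (2 * Real.pi * (n + 1) * y) /
      (2 * Real.pi ^ 2 * (n + 1) ^ 2) : ℝ) : ℂ))
      ((-(Real.sin (2 * Real.pi * (n + 1) * x) / (Real.pi * (n + 1))) : ℝ) : ℂ) x := by
    intro x
    have h1 : HasDerivAt (fun y : ℝ => 2 * Real.pi * (n + 1) * y) (2 * Real.pi * (n + 1)) x := by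
      simpa using (hasDerivAt_id x).const_mul (2 * Real.pi * ((n : ℝ) + 1))
    have h2 := (h1.cos.div_const (2 * Real.pi ^ 2 * ((n : ℝ) + 1) ^ 2)).ofReal_comp
    convert h2 using 2
    have : (n : ℝ) + 1 ≠ 0 := by positivity
    have hpi : Real.pi ≠ 0 := Real.pi_ne_zero
    field_simp
  have h := intervalIntegral.integral_mul_deriv_eq_deriv_mul (a := a) (b := b)
    (u := G) (u' := G') (v := fun y : ℝ => ((Real.cos (2 * Real.pi * (n + 1) * y) /
      (2 * Real.pi ^ 2 * (n + 1) ^ 2) : ℝ) : ℂ))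
    (v' := fun x => ((-(Real.sin (2 * Real.pi * (n + 1) * x) / (Real.pi * (n + 1))) : ℝ) : ℂ))
    (fun x hx => hG x (by rwa [Set.uIcc_of_le hab] at hx))
    (fun x _ => key x)
    (by
      apply ContinuousOn.intervalIntegrable
      rwa [Set.uIcc_of_le hab])
    (by
      apply Continuous.intervalIntegrable
      fun_prop)
  have e1 : ∀ c : ℝ → ℝ, ∀ H : ℝ → ℂ, (fun x => ((c x : ℝ) : ℂ) * H x) =
      fun x => H x * ((c x : ℝ) : ℂ) := fun c H => funext fun x => mul_comm _ _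
  rw [e1, h]
  rw [e1 (fun x => Real.cos (2 * Real.pi * (n + 1) * x) / (2 * Real.pi ^ 2 * (n + 1) ^ 2)) G']
  ring

theorem hasSum_sw (G G' : ℝ → ℂ) (a b : ℝ) (hab : a ≤ b)
    (hG : ∀ x ∈ Set.Icc a b, HasDerivAt G (G' x) x) (hG' : ContinuousOn G' (Set.Icc a b)) :
    HasSum (fun n : ℕ =>
      ∫ x in a..b, ((-(Real.sin (2 * Real.pi * (n + 1) * x) / (Real.pi * (n + 1))) : ℝ) : ℂ) * G x)
      (∫ x in a..b, ((sw x : ℝ) : ℂ) * G x) := by
  rw [int_sw_eq G G' a b hab hG hG']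
  simp_rw [int_sin_eq G G' a b hab _ hG hG']
  have hb : ∀ x : ℝ, ∀ z : ℂ, HasSum (fun n : ℕ => ((Real.cos (2 * Real.pi * (n + 1) * x) /
      (2 * Real.pi ^ 2 * (n + 1) ^ 2) : ℝ) : ℂ) * z) (((bt x : ℝ) : ℂ) * z) := by
    intro x z
    exact (Complex.hasSum_ofReal.mpr (hasSum_bt x)).mul_right z
  refine ((hb b (G b)).sub (hb a (G a))).sub ?_
  obtain ⟨M, hM⟩ := isCompact_Icc.exists_bound_of_continuousOn hG'
  have hsumm : Summable (fun n : ℕ => (1 / ((n : ℝ) + 1) ^ 2) * M) := by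
    apply Summable.mul_right
    have := (summable_nat_add_iff 1).mpr (Real.summable_one_div_nat_pow.mpr one_lt_two)
    simpa using this
  refine intervalIntegral.hasSum_integral_of_dominated_convergence
    (fun n _ => (1 / ((n : ℝ) + 1) ^ 2) * M) ?_ ?_ ?_ ?_ ?_
  · intro n
    apply ContinuousOn.aestronglyMeasurable _ measurableSet_uIoc
    rw [Set.uIoc_of_le hab]
    have h1 : ContinuousOn G' (Set.Ioc a b) := hG'.mono Set.Ioc_subset_Icc_self
    have h2 : Continuous (fun x : ℝ => ((Real.cos (2 * Real.pi * (n + 1) * x) /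
        (2 * Real.pi ^ 2 * (n + 1) ^ 2) : ℝ) : ℂ)) := by fun_prop
    exact h2.continuousOn.mul h1
  · intro n
    refine Filter.Eventually.of_forall fun x hx => ?_
    rw [Set.uIoc_of_le hab] at hx
    rw [norm_mul, Complex.norm_real, Real.norm_eq_abs]
    have hM' := hM x (Set.Ioc_subset_Icc_self hx)
    refine mul_le_mul ?_ hM' (norm_nonneg _) (by positivity)
    rw [abs_div, abs_of_pos (show (0 : ℝ) < 2 * Real.pi ^ 2 * (n + 1) ^ 2 by positivity)]
    rw [div_le_div_iff₀ (by positivity) (by positivity)]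
    have hc := Real.abs_cos_le_one (2 * Real.pi * (n + 1) * x)
    have hp : (1 : ℝ) ≤ 2 * Real.pi ^ 2 := by nlinarith [Real.pi_gt_three]
    have hq : (0 : ℝ) < ((n : ℝ) + 1) ^ 2 := by positivity
    nlinarith [abs_nonneg (Real.cos (2 * Real.pi * (n + 1) * x))]
  · exact Filter.Eventually.of_forall fun x _ => hsumm
  · exact intervalIntegrable_const
  · refine Filter.Eventually.of_forall fun x _ => hb x (G' x)

/-! ### the basic estimate -/

theorem phi_le {φ φ' : ℝ → ℝ} {a b : ℝ}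
    (hφ : ∀ x ∈ Set.Icc a b, HasDerivAt φ (φ' x) x) (hφn : ∀ x ∈ Set.Icc a b, φ' x ≤ 0)
    {x : ℝ} (hx : x ∈ Set.Icc a b) : φ x ≤ φ a := by
  have h : AntitoneOn φ (Set.Icc a b) := by
    apply antitoneOn_of_deriv_nonpos (convex_Icc a b)
    · exact fun x hx => (hφ x hx).continuousAt.continuousWithinAt
    · intro x hx
      exact (hφ x (interior_subset hx)).differentiableAt.differentiableWithinAt
    · intro x hx
      rw [(hφ x (interior_subset hx)).deriv]
      exact hφn x (interior_subset hx)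
  exact h ⟨le_refl a, hx.1.trans hx.2⟩ hx hx.1

theorem byparts (a b : ℝ) (hab : a ≤ b) (u u' h h' φ φ' : ℝ → ℝ) (U σ : ℝ)
    (hσ : |σ| = 1)
    (hφ : ∀ x ∈ Set.Icc a b, HasDerivAt φ (φ' x) x) (hφ' : ContinuousOn φ' (Set.Icc a b))
    (hφ0 : ∀ x ∈ Set.Icc a b, 0 ≤ φ x) (hφn : ∀ x ∈ Set.Icc a b, φ' x ≤ 0)
    (hu : ∀ x ∈ Set.Icc a b, HasDerivAt u (u' x) x) (hu' : ContinuousOn u' (Set.Icc a b))
    (hU : ∀ x ∈ Set.Icc a b, |u x| ≤ U)
    (hs : ∀ x ∈ Set.Icc a b, 0 ≤ σ * u' x)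
    (hh : ∀ x ∈ Set.Icc a b, HasDerivAt h (h' x) x) (hh' : ContinuousOn h' (Set.Icc a b)) :
    ‖∫ x in a..b, ((φ x * u x * h' x : ℝ) : ℂ) * ee (h x)‖ ≤ φ a * U := by
  have haI : a ∈ Set.Icc a b := ⟨le_refl a, hab⟩
  have hbI : b ∈ Set.Icc a b := ⟨hab, le_refl b⟩
  have hφc : ContinuousOn φ (Set.Icc a b) :=
    fun x hx => (hφ x hx).continuousAt.continuousWithinAt
  have huc : ContinuousOn u (Set.Icc a b) :=
    fun x hx => (hu x hx).continuousAt.continuousWithinAt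
  have hhc : ContinuousOn h (Set.Icc a b) :=
    fun x hx => (hh x hx).continuousAt.continuousWithinAt
  have hc2 : (2 * Real.pi * Complex.I : ℂ) ≠ 0 := by
    simp [Real.pi_ne_zero, Complex.I_ne_zero]
  have hV : ∀ x ∈ Set.Icc a b, HasDerivAt (fun y => ee (h y) / (2 * Real.pi * Complex.I))
      (((h' x : ℝ) : ℂ) * ee (h x)) x := by
    intro x hx
    have := (hasDerivAt_ee' (hh x hx)).div_const (2 * Real.pi * Complex.I)
    have e0 : ((h' x : ℝ) : ℂ) * ee (h x) =
        2 * Real.pi * Complex.I * h' x * ee (h x) / (2 * Real.pi * Complex.I) := by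
      rw [eq_div_iff hc2]
      ring
    rw [e0]
    exact this
  have hW : ∀ x ∈ Set.Icc a b, HasDerivAt (fun y => ((φ y * u y : ℝ) : ℂ))
      ((φ' x * u x + φ x * u' x : ℝ) : ℂ) x :=
    fun x hx => ((hφ x hx).mul (hu x hx)).ofReal_comp
  have hWc : ContinuousOn (fun x => ((φ' x * u x + φ x * u' x : ℝ) : ℂ)) (Set.Icc a b) :=
    Complex.continuous_ofReal.comp_continuousOn ((hφ'.mul huc).add (hφc.mul hu'))
  have hVc : ContinuousOn (fun x => ((h' x : ℝ) : ℂ) * ee (h x)) (Set.Icc a b) :=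
    (Complex.continuous_ofReal.comp_continuousOn hh').mul (continuousOn_ee' hhc)
  have key := intervalIntegral.integral_mul_deriv_eq_deriv_mul (a := a) (b := b)
    (u := fun y => ((φ y * u y : ℝ) : ℂ))
    (u' := fun x => ((φ' x * u x + φ x * u' x : ℝ) : ℂ))
    (v := fun y => ee (h y) / (2 * Real.pi * Complex.I))
    (v' := fun x => ((h' x : ℝ) : ℂ) * ee (h x))
    (fun x hx => hW x (by rwa [Set.uIcc_of_le hab] at hx))
    (fun x hx => hV x (by rwa [Set.uIcc_of_le hab] at hx))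
    (by apply ContinuousOn.intervalIntegrable; rwa [Set.uIcc_of_le hab])
    (by apply ContinuousOn.intervalIntegrable; rwa [Set.uIcc_of_le hab])
  have e1 : ∫ x in a..b, ((φ x * u x * h' x : ℝ) : ℂ) * ee (h x) =
      ∫ x in a..b, ((φ x * u x : ℝ) : ℂ) * (((h' x : ℝ) : ℂ) * ee (h x)) := by
    congr 1
    funext x
    push_cast
    ring
  rw [e1, key]
  have hpi : 0 < 2 * Real.pi := by positivity
  have nV : ∀ x, ‖ee (h x) / (2 * Real.pi * Complex.I)‖ = 1 / (2 * Real.pi) := by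
    intro x
    rw [norm_div, norm_ee', norm_mul, Complex.norm_I, mul_one, norm_mul, Complex.norm_real,
      Complex.norm_two, Real.norm_eq_abs, abs_of_pos Real.pi_pos]
  have hUnn : 0 ≤ U := (abs_nonneg _).trans (hU a haI)
  have hφa := hφ0 a haI
  have hφb := hφ0 b hbI
  have hint1 : IntervalIntegrable (fun x => (1 / (2 * Real.pi)) *
      (U * (-φ' x) + φ a * (σ * u' x))) volume a b := by
    apply ContinuousOn.intervalIntegrable
    rw [Set.uIcc_of_le hab]
    exact continuousOn_const.mul ((continuousOn_const.mul hφ'.neg).add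
      (continuousOn_const.mul (continuousOn_const.mul hu')))
  have hσu : ∀ x ∈ Set.Icc a b, |u' x| = σ * u' x := by
    intro x hx
    have := abs_of_nonneg (hs x hx)
    rw [abs_mul, hσ, one_mul] at this
    exact this
  have b3 : ‖∫ x in a..b, ((φ' x * u x + φ x * u' x : ℝ) : ℂ) *
      (ee (h x) / (2 * Real.pi * Complex.I))‖ ≤
      (1 / (2 * Real.pi)) * (U * (φ a - φ b) + φ a * (σ * (u b - u a))) := by
    have hle := intervalIntegral.norm_integral_le_of_norm_le hab (μ := volume)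
      (f := fun x => ((φ' x * u x + φ x * u' x : ℝ) : ℂ) * (ee (h x) / (2 * Real.pi * Complex.I)))
      (g := fun x => (1 / (2 * Real.pi)) * (U * (-φ' x) + φ a * (σ * u' x)))
      (Filter.Eventually.of_forall fun x hx => by
        have hx' := Set.Ioc_subset_Icc_self hx
        rw [norm_mul, nV, mul_comm, Complex.norm_real, Real.norm_eq_abs]
        refine mul_le_mul_of_nonneg_left ?_ (by positivity)
        refine (abs_add_le _ _).trans ?_
        rw [abs_mul, abs_mul, abs_of_nonpos (hφn x hx'), abs_of_nonneg (hφ0 x hx'), hσu x hx']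
        have h1 := phi_le hφ hφn hx'
        have h2 := hU x hx'
        have h3 := hφn x hx'
        have h4 := hs x hx'
        have h5 : -φ' x * |u x| ≤ U * (-φ' x) := by nlinarith
        have h6 : φ x * (σ * u' x) ≤ φ a * (σ * u' x) := by nlinarith
        linarith)
      hint1
    refine hle.trans (le_of_eq ?_)
    have i1 : IntervalIntegrable φ' volume a b := by
      apply ContinuousOn.intervalIntegrable; rwa [Set.uIcc_of_le hab]
    have i2 : IntervalIntegrable u' volume a b := by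
      apply ContinuousOn.intervalIntegrable; rwa [Set.uIcc_of_le hab]
    have e2 : (fun x => (1 / (2 * Real.pi)) * (U * (-φ' x) + φ a * (σ * u' x))) =
        fun x => (1 / (2 * Real.pi)) * ((-U) * φ' x + (φ a * σ) * u' x) := by
      funext x; ring
    rw [e2, intervalIntegral.integral_const_mul,
      intervalIntegral.integral_add (i1.const_mul (-U)) (i2.const_mul (φ a * σ)),
      intervalIntegral.integral_const_mul, intervalIntegral.integral_const_mul,
      intervalIntegral.integral_eq_sub_of_hasDerivAt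
        (fun x hx => hφ x (by rwa [Set.uIcc_of_le hab] at hx)) i1,
      intervalIntegral.integral_eq_sub_of_hasDerivAt
        (fun x hx => hu x (by rwa [Set.uIcc_of_le hab] at hx)) i2]
    ring
  have b1 : ‖((φ b * u b : ℝ) : ℂ) * (ee (h b) / (2 * Real.pi * Complex.I))‖ ≤
      (1 / (2 * Real.pi)) * (φ b * U) := by
    rw [norm_mul, nV, mul_comm, Complex.norm_real, Real.norm_eq_abs, abs_mul, abs_of_nonneg hφb]
    exact mul_le_mul_of_nonneg_left (mul_le_mul_of_nonneg_left (hU b hbI) hφb) (by positivity)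
  have b2 : ‖((φ a * u a : ℝ) : ℂ) * (ee (h a) / (2 * Real.pi * Complex.I))‖ ≤
      (1 / (2 * Real.pi)) * (φ a * U) := by
    rw [norm_mul, nV, mul_comm, Complex.norm_real, Real.norm_eq_abs, abs_mul, abs_of_nonneg hφa]
    exact mul_le_mul_of_nonneg_left (mul_le_mul_of_nonneg_left (hU a haI) hφa) (by positivity)
  have b4 : σ * (u b - u a) ≤ 2 * U := by
    have h1 : |σ * (u b - u a)| ≤ 2 * U := by
      rw [abs_mul, hσ, one_mul]
      refine (abs_sub _ _).trans ?_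
      linarith [hU a haI, hU b hbI]
    exact (le_abs_self _).trans h1
  refine (norm_sub_le _ _).trans ?_
  refine (add_le_add (norm_sub_le _ _) le_rfl).trans ?_
  refine (add_le_add (add_le_add b1 b2) b3).trans ?_
  rw [← mul_add, ← mul_add]
  have h4 : φ b * U + φ a * U + (U * (φ a - φ b) + φ a * (σ * (u b - u a))) ≤
      4 * (φ a * U) := by
    have := mul_le_mul_of_nonneg_left b4 hφa
    nlinarith
  have h5 : (0 : ℝ) ≤ φ a * U := mul_nonneg hφa hUnn
  have h6 : (1 / (2 * Real.pi)) * 4 ≤ 1 := by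
    rw [div_mul_eq_mul_div, one_mul, div_le_one hpi]
    linarith [Real.pi_gt_three]
  calc (1 / (2 * Real.pi)) * (φ b * U + φ a * U + (U * (φ a - φ b) + φ a * (σ * (u b - u a))))
      ≤ (1 / (2 * Real.pi)) * (4 * (φ a * U)) := mul_le_mul_of_nonneg_left h4 (by positivity)
    _ = ((1 / (2 * Real.pi)) * 4) * (φ a * U) := by ring
    _ ≤ 1 * (φ a * U) := mul_le_mul_of_nonneg_right h6 h5
    _ = φ a * U := one_mul _

/-- `J(c) = ∫ φ f' e(f - c x)`. -/
noncomputable def JJ (f f' φ : ℝ → ℝ) (a b c : ℝ) : ℂ :=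
  ∫ x in a..b, ((φ x * f' x : ℝ) : ℂ) * ee (f x - c * x)

/-- `I(c) = ∫ φ e(f - c x)`. -/
noncomputable def II (f φ : ℝ → ℝ) (a b c : ℝ) : ℂ :=
  ∫ x in a..b, ((φ x : ℝ) : ℂ) * ee (f x - c * x)

section main

variable (a b : ℝ) (f f' f'' φ φ' : ℝ → ℝ) (σ : ℝ)

theorem deriv_shift {f f' : ℝ → ℝ} {x : ℝ} (hf : HasDerivAt f (f' x) x) (c : ℝ) :
    HasDerivAt (fun y => f y - c * y) (f' x - c) x := by
  have := hf.sub ((hasDerivAt_id' x).const_mul c)
  rw [mul_one] at this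
  exact this

/-- bound for `J(c)` when `c` is away from `[0,m]`. -/
theorem JJ_bound (hab : a ≤ b) (hσ : |σ| = 1)
    (hf : ∀ x ∈ Set.Icc a b, HasDerivAt f (f' x) x)
    (hf' : ∀ x ∈ Set.Icc a b, HasDerivAt f' (f'' x) x)
    (hφ : ∀ x ∈ Set.Icc a b, HasDerivAt φ (φ' x) x)
    (hf''c : ContinuousOn f'' (Set.Icc a b)) (hφ'c : ContinuousOn φ' (Set.Icc a b))
    (hs : ∀ x ∈ Set.Icc a b, 0 ≤ σ * f'' x)
    (hφ0 : ∀ x ∈ Set.Icc a b, 0 ≤ φ x) (hφn : ∀ x ∈ Set.Icc a b, φ' x ≤ 0)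
    (c U : ℝ) (hne : ∀ x ∈ Set.Icc a b, f' x - c ≠ 0)
    (hU : ∀ x ∈ Set.Icc a b, |f' x / (f' x - c)| ≤ U) (hc0 : c ≠ 0) :
    ‖JJ f f' φ a b c‖ ≤ φ a * U := by
  have hf'c : ContinuousOn f' (Set.Icc a b) :=
    fun x hx => (hf' x hx).continuousAt.continuousWithinAt
  have hσc : |(-(σ * (c / |c|)))| = 1 := by
    rw [abs_neg, abs_mul, hσ, one_mul, abs_div, abs_abs, div_self]
    exact abs_ne_zero.mpr hc0
  have h := byparts a b hab (fun x => f' x / (f' x - c))
    (fun x => (f'' x * (f' x - c) - f' x * f'' x) / (f' x - c) ^ 2) (fun x => f x - c * x)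
    (fun x => f' x - c) φ φ' U (-(σ * (c / |c|))) hσc hφ hφ'c hφ0 hφn
    (fun x hx => (hf' x hx).div ((hf' x hx).sub_const c) (hne x hx))
    (by
      apply ContinuousOn.div
      · exact (hf''c.mul (hf'c.sub continuousOn_const)).sub (hf'c.mul hf''c)
      · exact (hf'c.sub continuousOn_const).pow 2
      · intro x hx
        exact pow_ne_zero 2 (hne x hx))
    hU
    (fun x hx => by
      have e : -(σ * (c / |c|)) * ((f'' x * (f' x - c) - f' x * f'' x) / (f' x - c) ^ 2) =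
          (σ * f'' x) * (c ^ 2 / |c|) / (f' x - c) ^ 2 := by
        ring
      rw [e]
      have := hs x hx
      positivity)
    (fun x hx => deriv_shift (hf x hx) c)
    (hf'c.sub continuousOn_const)
  refine le_trans (le_of_eq ?_) h
  congr 1
  unfold JJ
  refine intervalIntegral.integral_congr fun x hx => ?_
  rw [Set.uIcc_of_le hab] at hx
  have hx' := hne x hx
  have : φ x * (f' x / (f' x - c)) * (f' x - c) = φ x * f' x := by
    rw [mul_assoc, div_mul_cancel₀ _ hx']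
  simp only [this]

/-- `J(c) = c I(c) + O(φ(a))`. -/
theorem JJ_II (hab : a ≤ b)
    (hf : ∀ x ∈ Set.Icc a b, HasDerivAt f (f' x) x)
    (hf' : ∀ x ∈ Set.Icc a b, HasDerivAt f' (f'' x) x)
    (hφ : ∀ x ∈ Set.Icc a b, HasDerivAt φ (φ' x) x)
    (hφ'c : ContinuousOn φ' (Set.Icc a b))
    (hφ0 : ∀ x ∈ Set.Icc a b, 0 ≤ φ x) (hφn : ∀ x ∈ Set.Icc a b, φ' x ≤ 0)
    (c : ℝ) :
    ‖JJ f f' φ a b c - c * II f φ a b c‖ ≤ φ a := by
  have hf'c : ContinuousOn f' (Set.Icc a b) :=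
    fun x hx => (hf' x hx).continuousAt.continuousWithinAt
  have hfc : ContinuousOn f (Set.Icc a b) :=
    fun x hx => (hf x hx).continuousAt.continuousWithinAt
  have hφc : ContinuousOn φ (Set.Icc a b) :=
    fun x hx => (hφ x hx).continuousAt.continuousWithinAt
  have h := byparts a b hab (fun _ => 1) (fun _ => 0) (fun x => f x - c * x)
    (fun x => f' x - c) φ φ' 1 1 (by simp) hφ hφ'c hφ0 hφn
    (fun x _ => hasDerivAt_const x (1 : ℝ)) continuousOn_const
    (fun x _ => by simp) (fun x _ => by simp)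
    (fun x hx => deriv_shift (hf x hx) c)
    (hf'c.sub continuousOn_const)
  rw [mul_one] at h
  refine le_trans (le_of_eq ?_) h
  congr 1
  unfold JJ II
  have hec : ContinuousOn (fun x => ee (f x - c * x)) (Set.Icc a b) :=
    continuousOn_ee' (hfc.sub (continuousOn_const.mul continuousOn_id))
  rw [← intervalIntegral.integral_const_mul, ← intervalIntegral.integral_sub]
  · congr 1
    funext x
    push_cast
    ring
  · apply ContinuousOn.intervalIntegrable
    rw [Set.uIcc_of_le hab]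
    exact (Complex.continuous_ofReal.comp_continuousOn (hφc.mul hf'c)).mul hec
  · apply ContinuousOn.intervalIntegrable
    rw [Set.uIcc_of_le hab]
    exact continuousOn_const.mul ((Complex.continuous_ofReal.comp_continuousOn hφc).mul hec)

end main

/-! ### assembly -/

/-- harmonic numbers. -/
noncomputable def HH (m : ℕ) : ℝ := ∑ i ∈ range m, 1 / ((i : ℝ) + 1)

theorem HH_le (m : ℕ) : HH m ≤ 1 + Real.log (1 + m) := by
  have h : HH m = (harmonic m : ℝ) := by
    simp [HH, harmonic]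
  rw [h]
  rcases Nat.eq_zero_or_pos m with h0 | h0
  · subst h0
    simp
  · refine (harmonic_le_one_add_log m).trans ?_
    have : Real.log m ≤ Real.log (1 + m) := by
      apply Real.log_le_log
      · exact_mod_cast h0
      · linarith
    linarith

theorem HH_mono {m n : ℕ} (h : m ≤ n) : HH m ≤ HH n := by
  unfold HH
  apply Finset.sum_le_sum_of_subset_of_nonneg
  · exact Finset.range_mono h
  · intro i _ _
    positivity

theorem HH_nonneg (m : ℕ) : 0 ≤ HH m := by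
  unfold HH
  positivity

theorem HH_add (m K : ℕ) : HH (m + K) = HH m + ∑ k ∈ range K, 1 / ((m : ℝ) + k + 1) := by
  unfold HH
  rw [Finset.sum_range_add]
  push_cast
  rfl

theorem sum_main (m N : ℕ) (hN : m ≤ N) (A : ℝ) (hA : 0 ≤ A) (Jp Jm I : ℕ → ℂ)
    (h1 : ∀ n, ‖Jm n‖ ≤ A * (m / (m + (n + 1))))
    (h2 : ∀ n, m ≤ n → ‖Jp n‖ ≤ A * (m / ((n + 1) - m)))
    (h3 : ∀ n, ‖Jp n - (n + 1) * I n‖ ≤ A) :
    ‖∑ n ∈ range N, (1 / ((n : ℂ) + 1)) * (Jp n - Jm n) - ∑ n ∈ range m, I n‖ ≤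
      A * (3 * HH m) := by
  obtain ⟨K, rfl⟩ := Nat.exists_eq_add_of_le hN
  have e1 : ∑ n ∈ range (m + K), (1 / ((n : ℂ) + 1)) * (Jp n - Jm n) - ∑ n ∈ range m, I n =
      ∑ n ∈ range m, (1 / ((n : ℂ) + 1)) * (Jp n - (n + 1) * I n) +
      ∑ k ∈ range K, (1 / ((m : ℂ) + k + 1)) * Jp (m + k) -
      ∑ n ∈ range (m + K), (1 / ((n : ℂ) + 1)) * Jm n := by
    have : ∀ n ∈ range m, (1 / ((n : ℂ) + 1)) * (Jp n - (n + 1) * I n) =
        (1 / ((n : ℂ) + 1)) * Jp n - I n := by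
      intro n _
      have : (n : ℂ) + 1 ≠ 0 := Nat.cast_add_one_ne_zero n
      field_simp
    rw [Finset.sum_congr rfl this, Finset.sum_sub_distrib]
    simp_rw [mul_sub, Finset.sum_sub_distrib]
    rw [Finset.sum_range_add (fun n => (1 / ((n : ℂ) + 1)) * Jp n) m K]
    push_cast
    ring
  rw [e1]
  have n1 : ∀ n : ℕ, ‖(1 / ((n : ℂ) + 1))‖ = 1 / ((n : ℝ) + 1) := by
    intro n
    have : ((n : ℂ) + 1) = (((n : ℝ) + 1 : ℝ) : ℂ) := by push_cast; rfl
    rw [norm_div, norm_one, this, Complex.norm_real, Real.norm_eq_abs, abs_of_pos (by positivity)]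
  have b1 : ‖∑ n ∈ range m, (1 / ((n : ℂ) + 1)) * (Jp n - (n + 1) * I n)‖ ≤ A * HH m := by
    refine (norm_sum_le _ _).trans ?_
    rw [HH, Finset.mul_sum]
    refine Finset.sum_le_sum fun n _ => ?_
    rw [norm_mul, n1, mul_comm]
    exact mul_le_mul_of_nonneg_right (h3 n) (by positivity)
  have tele : ∀ K' : ℕ, ∑ k ∈ range K', (1 / ((m : ℝ) + k + 1)) * (m / (k + 1)) ≤ HH m := by
    intro K'
    have e : ∀ k ∈ range K', (1 / ((m : ℝ) + k + 1)) * (m / (k + 1)) =
        1 / ((k : ℝ) + 1) - 1 / ((m : ℝ) + k + 1) := by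
      intro k _
      have h1 : (m : ℝ) + k + 1 ≠ 0 := by positivity
      have h2 : (k : ℝ) + 1 ≠ 0 := by positivity
      field_simp
      ring
    rw [Finset.sum_congr rfl e, Finset.sum_sub_distrib]
    have e2 : ∑ k ∈ range K', 1 / ((k : ℝ) + 1) = HH K' := rfl
    have e3 := HH_add m K'
    have e4 := HH_mono (show K' ≤ m + K' by lia)
    rw [e2]
    linarith
  have b2 : ‖∑ k ∈ range K, (1 / ((m : ℂ) + k + 1)) * Jp (m + k)‖ ≤ A * HH m := by
    refine (norm_sum_le _ _).trans ?_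
    refine le_trans ?_ (mul_le_mul_of_nonneg_left (tele K) hA)
    rw [Finset.mul_sum]
    refine Finset.sum_le_sum fun k _ => ?_
    have e : ((m : ℂ) + k + 1) = (((m + k : ℕ) : ℂ) + 1) := by push_cast; rfl
    rw [norm_mul, e, n1]
    have := h2 (m + k) (by lia)
    have e2 : ((m + k : ℕ) : ℝ) + 1 - m = k + 1 := by push_cast; ring
    rw [e2] at this
    have e3 : ((m + k : ℕ) : ℝ) + 1 = (m : ℝ) + k + 1 := by push_cast; ring
    rw [e3]
    calc 1 / ((m : ℝ) + k + 1) * ‖Jp (m + k)‖ ≤ 1 / ((m : ℝ) + k + 1) * (A * (m / (k + 1))) :=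
          mul_le_mul_of_nonneg_left this (by positivity)
      _ = A * (1 / ((m : ℝ) + k + 1) * (m / (k + 1))) := by ring
  have b3 : ‖∑ n ∈ range (m + K), (1 / ((n : ℂ) + 1)) * Jm n‖ ≤ A * HH m := by
    refine (norm_sum_le _ _).trans ?_
    refine le_trans ?_ (mul_le_mul_of_nonneg_left (tele (m + K)) hA)
    rw [Finset.mul_sum]
    refine Finset.sum_le_sum fun k _ => ?_
    rw [norm_mul, n1]
    calc 1 / ((k : ℝ) + 1) * ‖Jm k‖ ≤ 1 / ((k : ℝ) + 1) * (A * (m / (m + (k + 1)))) :=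
          mul_le_mul_of_nonneg_left (h1 k) (by positivity)
      _ = A * (1 / ((m : ℝ) + k + 1) * (m / (k + 1))) := by
          have h1 : (m : ℝ) + k + 1 ≠ 0 := by positivity
          have h2 : (k : ℝ) + 1 ≠ 0 := by positivity
          have h3 : (m : ℝ) + (k + 1) ≠ 0 := by positivity
          field_simp
          ring
  calc _ ≤ ‖∑ n ∈ range m, (1 / ((n : ℂ) + 1)) * (Jp n - (n + 1) * I n) +
      ∑ k ∈ range K, (1 / ((m : ℂ) + k + 1)) * Jp (m + k)‖ +
      ‖∑ n ∈ range (m + K), (1 / ((n : ℂ) + 1)) * Jm n‖ := norm_sub_le _ _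
    _ ≤ (A * HH m + A * HH m) + A * HH m :=
      add_le_add ((norm_add_le _ _).trans (add_le_add b1 b2)) b3
    _ = A * (3 * HH m) := by ring

theorem term_eq (a b : ℝ) (f f' φ : ℝ → ℝ) (hab : a ≤ b)
    (hfc : ContinuousOn f (Set.Icc a b)) (hf'c : ContinuousOn f' (Set.Icc a b))
    (hφc : ContinuousOn φ (Set.Icc a b)) (n : ℕ) :
    2 * Real.pi * Complex.I *
      ∫ x in a..b, ((-(Real.sin (2 * Real.pi * (n + 1) * x) / (Real.pi * (n + 1))) : ℝ) : ℂ) *
        (((φ x * f' x : ℝ) : ℂ) * ee (f x)) =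
      (1 / ((n : ℂ) + 1)) * (JJ f f' φ a b ((n : ℝ) + 1) - JJ f f' φ a b (-((n : ℝ) + 1))) := by
  have hi : ∀ c : ℝ, IntervalIntegrable (fun x => ((φ x * f' x : ℝ) : ℂ) * ee (f x - c * x))
      volume a b := by
    intro c
    apply ContinuousOn.intervalIntegrable
    rw [Set.uIcc_of_le hab]
    exact (Complex.continuous_ofReal.comp_continuousOn (hφc.mul hf'c)).mul
      (continuousOn_ee' (hfc.sub (continuousOn_const.mul continuousOn_id)))
  unfold JJ
  rw [← intervalIntegral.integral_sub (hi _) (hi _), ← intervalIntegral.integral_const_mul,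
    ← intervalIntegral.integral_const_mul]
  congr 1
  funext x
  have h1 : f x - ((n : ℝ) + 1) * x = f x + (-(((n : ℝ) + 1) * x)) := by ring
  have h2 : f x - (-((n : ℝ) + 1)) * x = f x + ((n : ℝ) + 1) * x := by ring
  rw [h1, h2, ee_add', ee_add']
  have h3 : ((Real.sin (2 * Real.pi * (n + 1) * x) : ℝ) : ℂ) =
      (ee (-(((n : ℝ) + 1) * x)) - ee (((n : ℝ) + 1) * x)) * Complex.I / 2 := by
    rw [Complex.ofReal_sin, Complex.sin]
    unfold ee ei
    congr 3
    · congr 1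
      push_cast
      ring_nf
    · congr 1
      push_cast
      ring_nf
  have hn : (n : ℂ) + 1 ≠ 0 := Nat.cast_add_one_ne_zero n
  have hpi : (Real.pi : ℂ) ≠ 0 := by exact_mod_cast Real.pi_ne_zero
  rw [Complex.ofReal_neg, Complex.ofReal_div, h3]
  push_cast
  field_simp
  ring_nf
  simp only [Complex.I_sq]
  ring

theorem tp_aux (a b : ℝ) (m : ℕ) (f f' f'' φ φ' : ℝ → ℝ) (σ : ℝ) (hab : a ≤ b) (hσ : |σ| = 1)
    (hf : ∀ x ∈ Set.Icc a b, HasDerivAt f (f' x) x)
    (hf' : ∀ x ∈ Set.Icc a b, HasDerivAt f' (f'' x) x)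
    (hφ : ∀ x ∈ Set.Icc a b, HasDerivAt φ (φ' x) x)
    (hf''c : ContinuousOn f'' (Set.Icc a b)) (hφ'c : ContinuousOn φ' (Set.Icc a b))
    (hm : ∀ x ∈ Set.Icc a b, 0 ≤ f' x ∧ f' x ≤ m)
    (hs : ∀ x ∈ Set.Icc a b, 0 ≤ σ * f'' x)
    (hφ0 : ∀ x ∈ Set.Icc a b, 0 ≤ φ x) (hφn : ∀ x ∈ Set.Icc a b, φ' x ≤ 0) :
    ‖∑ n ∈ Icc ⌈a⌉ ⌊b⌋, ((φ n : ℝ) : ℂ) * ee (f n) - ∑ ν ∈ range (m + 1), II f φ a b (ν : ℝ)‖ ≤
      φ a * (5 / 2 + 3 * HH m) := by
  have haI : a ∈ Set.Icc a b := ⟨le_refl a, hab⟩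
  have hbI : b ∈ Set.Icc a b := ⟨hab, le_refl b⟩
  have hφa := hφ0 a haI
  have hfc : ContinuousOn f (Set.Icc a b) :=
    fun x hx => (hf x hx).continuousAt.continuousWithinAt
  have hf'c : ContinuousOn f' (Set.Icc a b) :=
    fun x hx => (hf' x hx).continuousAt.continuousWithinAt
  have hφc : ContinuousOn φ (Set.Icc a b) :=
    fun x hx => (hφ x hx).continuousAt.continuousWithinAt
  have hec : ContinuousOn (fun x => ee (f x)) (Set.Icc a b) := continuousOn_ee' hfc
  have cR : ∀ g : ℝ → ℝ, ContinuousOn g (Set.Icc a b) →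
      ContinuousOn (fun x => ((g x : ℝ) : ℂ)) (Set.Icc a b) := fun g hg =>
    Complex.continuous_ofReal.comp_continuousOn hg
  set F : ℝ → ℂ := fun x => ((φ x : ℝ) : ℂ) * ee (f x) with hF
  set G : ℝ → ℂ := fun x => ((φ x * f' x : ℝ) : ℂ) * ee (f x) with hG
  set E : ℝ → ℂ := fun x => ((φ' x : ℝ) : ℂ) * ee (f x) with hE
  have dF : ∀ x ∈ Set.Icc a b, HasDerivAt F (E x + 2 * Real.pi * Complex.I * G x) x := by
    intro x hx
    have := (hφ x hx).ofReal_comp.mul (hasDerivAt_ee' (hf x hx))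
    have e : E x + 2 * Real.pi * Complex.I * G x = ((φ' x : ℝ) : ℂ) * ee (f x) +
        ((φ x : ℝ) : ℂ) * (2 * Real.pi * Complex.I * f' x * ee (f x)) := by
      simp only [hE, hG]
      push_cast
      ring
    rw [e]
    exact this
  have cE : ContinuousOn E (Set.Icc a b) := (cR _ hφ'c).mul hec
  have cG : ContinuousOn G (Set.Icc a b) := (cR _ (hφc.mul hf'c)).mul hec
  have cdF : ContinuousOn (fun x => E x + 2 * Real.pi * Complex.I * G x) (Set.Icc a b) :=
    cE.add (continuousOn_const.mul cG)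
  have dG : ∀ x ∈ Set.Icc a b, HasDerivAt G (((φ' x * f' x + φ x * f'' x : ℝ) : ℂ) * ee (f x) +
      ((φ x * f' x : ℝ) : ℂ) * (2 * Real.pi * Complex.I * f' x * ee (f x))) x := by
    intro x hx
    exact ((hφ x hx).mul (hf' x hx)).ofReal_comp.mul (hasDerivAt_ee' (hf x hx))
  have cdG : ContinuousOn (fun x => ((φ' x * f' x + φ x * f'' x : ℝ) : ℂ) * ee (f x) +
      ((φ x * f' x : ℝ) : ℂ) * (2 * Real.pi * Complex.I * f' x * ee (f x))) (Set.Icc a b) :=
    ((cR _ ((hφ'c.mul hf'c).add (hφc.mul hf''c))).mul hec).add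
      ((cR _ (hφc.mul hf'c)).mul ((continuousOn_const.mul (cR _ hf'c)).mul hec))
  have iE : IntervalIntegrable E volume a b := by
    apply ContinuousOn.intervalIntegrable; rwa [Set.uIcc_of_le hab]
  have iG : IntervalIntegrable G volume a b := by
    apply ContinuousOn.intervalIntegrable; rwa [Set.uIcc_of_le hab]
  have nF : ∀ x ∈ Set.Icc a b, ‖F x‖ ≤ φ a := by
    intro x hx
    simp only [hF]
    rw [norm_mul, norm_ee', mul_one, Complex.norm_real, Real.norm_eq_abs,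
      abs_of_nonneg (hφ0 x hx)]
    exact phi_le hφ hφn hx
  -- Euler summation
  have hEu := euler_sum F _ a b hab dF cdF
  have hsplit : ∫ x in a..b, ((sw x : ℝ) : ℂ) * (E x + 2 * Real.pi * Complex.I * G x) =
      (∫ x in a..b, ((sw x : ℝ) : ℂ) * E x) +
        2 * Real.pi * Complex.I * ∫ x in a..b, ((sw x : ℝ) : ℂ) * G x := by
    rw [← intervalIntegral.integral_const_mul, ← intervalIntegral.integral_add
      (sw_integrable iE) ((sw_integrable iG).const_mul _)]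
    congr 1
    funext x
    ring
  rw [hsplit] at hEu
  -- first sum versus Ioc
  have hR1 : ‖∑ n ∈ Icc ⌈a⌉ ⌊b⌋, F n - ∑ n ∈ Ioc ⌊a⌋ ⌊b⌋, F n‖ ≤ φ a := by
    by_cases hai : (⌊a⌋ : ℝ) = a
    · have hc : ⌈a⌉ = ⌊a⌋ := by
        rw [← hai, Int.ceil_intCast, Int.floor_intCast]
      have hle : ⌊a⌋ ≤ ⌊b⌋ := Int.floor_mono hab
      have hins : Icc ⌊a⌋ ⌊b⌋ = insert ⌊a⌋ (Ioc ⌊a⌋ ⌊b⌋) := by
        ext x
        simp only [Finset.mem_Icc, Finset.mem_Ioc, Finset.mem_insert]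
        lia
      rw [hc, hins, Finset.sum_insert (by simp), add_sub_cancel_right]
      rw [hai]
      exact nF a haI
    · have hlt : (⌊a⌋ : ℝ) < a := lt_of_le_of_ne (Int.floor_le a) hai
      have hc : ⌈a⌉ = ⌊a⌋ + 1 := by
        rw [Int.ceil_eq_iff]
        push_cast
        constructor
        · linarith
        · exact (Int.lt_floor_add_one a).le
      have : Icc ⌈a⌉ ⌊b⌋ = Ioc ⌊a⌋ ⌊b⌋ := by
        ext x
        simp only [Finset.mem_Icc, Finset.mem_Ioc, hc]
        lia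
      rw [this, sub_self, norm_zero]
      exact hφa
  -- E part
  have hR2 : ‖∫ x in a..b, ((sw x : ℝ) : ℂ) * E x‖ ≤ φ a / 2 := by
    have iφ' : IntervalIntegrable φ' volume a b := by
      apply ContinuousOn.intervalIntegrable; rwa [Set.uIcc_of_le hab]
    have hle := intervalIntegral.norm_integral_le_of_norm_le hab (μ := volume)
      (f := fun x => ((sw x : ℝ) : ℂ) * E x)
      (g := fun x => (-(1 / 2)) * φ' x)
      (Filter.Eventually.of_forall fun x hx => by
        have hx' := Set.Ioc_subset_Icc_self hx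
        simp only [hE]
        rw [norm_mul, norm_mul, norm_ee', mul_one, Complex.norm_real, Complex.norm_real,
          Real.norm_eq_abs, Real.norm_eq_abs, abs_of_nonpos (hφn x hx')]
        have h1 := abs_sw_le x
        have h2 := hφn x hx'
        nlinarith)
      (iφ'.const_mul _)
    refine hle.trans ?_
    rw [intervalIntegral.integral_const_mul, intervalIntegral.integral_eq_sub_of_hasDerivAt
        (fun x hx => hφ x (by rwa [Set.uIcc_of_le hab] at hx)) iφ']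
    have := hφ0 b hbI
    linarith
  -- boundary
  have hR3 : ‖((sw a : ℝ) : ℂ) * F a‖ ≤ φ a / 2 := by
    rw [norm_mul, Complex.norm_real, Real.norm_eq_abs]
    have h1 := abs_sw_le a
    have h2 := nF a haI
    nlinarith [norm_nonneg (F a), abs_nonneg (sw a)]
  have hR4 : ‖((sw b : ℝ) : ℂ) * F b‖ ≤ φ a / 2 := by
    rw [norm_mul, Complex.norm_real, Real.norm_eq_abs]
    have h1 := abs_sw_le b
    have h2 := nF b hbI
    nlinarith [norm_nonneg (F b), abs_nonneg (sw b)]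
  -- main part
  have hHS := (hasSum_sw G _ a b hab dG cdG).mul_left (2 * Real.pi * Complex.I)
  have hterm : ∀ n : ℕ, 2 * Real.pi * Complex.I *
      (∫ x in a..b, ((-(Real.sin (2 * Real.pi * (n + 1) * x) / (Real.pi * (n + 1))) : ℝ) : ℂ) *
        G x) =
      (1 / ((n : ℂ) + 1)) * (JJ f f' φ a b ((n : ℝ) + 1) - JJ f f' φ a b (-((n : ℝ) + 1))) :=
    fun n => term_eq a b f f' φ hab hfc hf'c hφc n
  simp_rw [hterm] at hHS
  have hJ : ∀ c U : ℝ, (∀ x ∈ Set.Icc a b, f' x - c ≠ 0) →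
      (∀ x ∈ Set.Icc a b, |f' x / (f' x - c)| ≤ U) → c ≠ 0 →
      ‖JJ f f' φ a b c‖ ≤ φ a * U :=
    JJ_bound a b f f' f'' φ φ' σ hab hσ hf hf' hφ hf''c hφ'c hs hφ0 hφn
  have hJm : ∀ n : ℕ, ‖JJ f f' φ a b (-((n : ℝ) + 1))‖ ≤ φ a * (m / (m + (n + 1))) := by
    intro n
    have hn : (0 : ℝ) < (n : ℝ) + 1 := by positivity
    refine hJ _ _ ?_ ?_ (by linarith)
    · intro x hx
      have h1 := (hm x hx).1
      have : 0 < f' x - -((n : ℝ) + 1) := by linarith
      exact this.ne'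
    · intro x hx
      have h1 := (hm x hx).1
      have h2 := (hm x hx).2
      have h3 : 0 < f' x - -((n : ℝ) + 1) := by linarith
      have h4 : (0 : ℝ) < m + ((n : ℝ) + 1) := by positivity
      rw [abs_of_nonneg (by positivity), div_le_div_iff₀ h3 h4]
      nlinarith
  have hR5 : ‖2 * Real.pi * Complex.I * (∫ x in a..b, ((sw x : ℝ) : ℂ) * G x) -
      ∑ n ∈ range m, II f φ a b ((n : ℝ) + 1)‖ ≤ φ a * (3 * HH m) := by
    have ht := (hHS.tendsto_sum_nat.sub_const (∑ n ∈ range m, II f φ a b ((n : ℝ) + 1))).norm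
    refine le_of_tendsto ht ?_
    filter_upwards [Filter.eventually_ge_atTop m] with N hN
    refine sum_main m N hN (φ a) hφa (fun n => JJ f f' φ a b ((n : ℝ) + 1))
      (fun n => JJ f f' φ a b (-((n : ℝ) + 1))) (fun n => II f φ a b ((n : ℝ) + 1)) hJm ?_ ?_
    · intro n hn
      have hn' : (m : ℝ) ≤ n := by exact_mod_cast hn
      have hd : (0 : ℝ) < (n : ℝ) + 1 - m := by linarith
      refine hJ _ _ ?_ ?_ (by positivity)
      · intro x hx
        have h2 := (hm x hx).2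
        have : f' x - ((n : ℝ) + 1) < 0 := by linarith
        exact this.ne
      · intro x hx
        have h1 := (hm x hx).1
        have h2 := (hm x hx).2
        rw [abs_div, abs_of_nonneg h1, abs_of_nonpos (show f' x - ((n : ℝ) + 1) ≤ 0 by linarith)]
        exact div_le_div₀ (Nat.cast_nonneg m) h2 hd (by linarith)
    · intro n
      have := JJ_II a b f f' f'' φ φ' hab hf hf' hφ hφ'c hφ0 hφn ((n : ℝ) + 1)
      push_cast at this
      exact this
  have hII0 : II f φ a b ((0 : ℕ) : ℝ) = ∫ x in a..b, F x := by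
    unfold II
    congr 1
    funext x
    simp [hF]
  have hfin : ∑ n ∈ Icc ⌈a⌉ ⌊b⌋, F n - ∑ ν ∈ range (m + 1), II f φ a b (ν : ℝ) =
      (∑ n ∈ Icc ⌈a⌉ ⌊b⌋, F n - ∑ n ∈ Ioc ⌊a⌋ ⌊b⌋, F n) +
      (∫ x in a..b, ((sw x : ℝ) : ℂ) * E x) +
      (2 * Real.pi * Complex.I * (∫ x in a..b, ((sw x : ℝ) : ℂ) * G x) -
        ∑ n ∈ range m, II f φ a b ((n : ℝ) + 1)) +
      ((sw a : ℝ) : ℂ) * F a - ((sw b : ℝ) : ℂ) * F b := by
    rw [Finset.sum_range_succ', hEu, hII0]
    push_cast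
    ring
  have hgoal : ∑ n ∈ Icc ⌈a⌉ ⌊b⌋, ((φ n : ℝ) : ℂ) * ee (f n) = ∑ n ∈ Icc ⌈a⌉ ⌊b⌋, F n := rfl
  rw [hgoal, hfin]
  refine (norm_sub_le _ _).trans ?_
  refine (add_le_add (norm_add_le _ _) le_rfl).trans ?_
  refine (add_le_add (add_le_add (norm_add_le _ _) le_rfl) le_rfl).trans ?_
  refine (add_le_add (add_le_add (add_le_add (norm_add_le _ _) le_rfl) le_rfl) le_rfl).trans ?_
  linarith

/-- [TP] truncated Poisson summation. -/
theorem tp : TTP := by
  refine ⟨6, by norm_num, ?_⟩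
  intro a b m₁ m₂ f f' f'' φ φ' hab hm12 hf hf' hφ hf''c hφ'c hm hs hφ0 hφn
  obtain ⟨m, hm'⟩ : ∃ m : ℕ, m₂ = m₁ + m := ⟨(m₂ - m₁).toNat, by lia⟩
  have hmR : (m₂ : ℝ) = m₁ + m := by rw [hm']; push_cast; ring
  obtain ⟨σ, hσ, hsσ⟩ : ∃ σ : ℝ, |σ| = 1 ∧ ∀ x ∈ Set.Icc a b, 0 ≤ σ * f'' x := by
    rcases hs with h | h
    · exact ⟨1, by simp, fun x hx => by rw [one_mul]; exact h x hx⟩
    · exact ⟨-1, by simp, fun x hx => by have := h x hx; linarith⟩
  have key := tp_aux a b m (fun x => f x - m₁ * x) (fun x => f' x - m₁) f'' φ φ' σ hab hσ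
    (fun x hx => deriv_shift (hf x hx) _) (fun x hx => (hf' x hx).sub_const _) hφ hf''c hφ'c
    (fun x hx => by
      have h1 := (hm x hx).1
      have h2 := (hm x hx).2
      constructor
      · linarith
      · linarith)
    hsσ hφ0 hφn
  have e1 : ∑ n ∈ Icc ⌈a⌉ ⌊b⌋, ((φ n : ℝ) : ℂ) * ee (f n - m₁ * n) =
      ∑ n ∈ Icc ⌈a⌉ ⌊b⌋, ((φ n : ℝ) : ℂ) * ee (f n) := by
    refine Finset.sum_congr rfl fun n _ => ?_
    congr 1
    have : f n - m₁ * n = f n + ((-(m₁ * n) : ℤ) : ℝ) := by push_cast; ring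
    rw [this, ee_add', ee_int', mul_one]
  have e2 : ∑ ν ∈ range (m + 1), II (fun x => f x - m₁ * x) φ a b (ν : ℝ) =
      ∑ ν ∈ Icc m₁ m₂, ∫ x in a..b, ((φ x : ℝ) : ℂ) * ee (f x - ν * x) := by
    refine Finset.sum_bij (fun (k : ℕ) _ => m₁ + (k : ℤ)) ?_ ?_ ?_ ?_
    · intro k hk
      simp only [Finset.mem_range, Finset.mem_Icc] at hk ⊢
      lia
    · intro k _ l _ h
      lia
    · intro ν hν
      simp only [Finset.mem_Icc] at hν
      refine ⟨(ν - m₁).toNat, ?_, ?_⟩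
      · simp only [Finset.mem_range]
        lia
      · lia
    · intro k _
      unfold II
      congr 1
      funext x
      push_cast
      congr 2
      ring
  rw [← e1, ← e2]
  refine key.trans ?_
  have hφa := hφ0 a ⟨le_refl a, hab⟩
  have hH := HH_le m
  have hL : 0 ≤ Real.log (1 + (m : ℝ)) := Real.log_nonneg (by linarith [Nat.cast_nonneg (α := ℝ) m])
  have e3 : (m₂ : ℝ) - m₁ = m := by rw [hmR]; ring
  rw [e3, mul_comm (6 : ℝ), mul_assoc]
  refine mul_le_mul_of_nonneg_left ?_ hφa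
  linarith

end Pool.Agent.H94.Cubic
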